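import Pool.Agent.Helper45.L.Defs
import Pool.Agent.Helper22.HG.Der
import Pool.Agent.Helper17.FF.Basic

/-!
# The primes whose Frobenius elements fix no branch point (project L, block DEN)
-/

set_option autoImplicit false

open NumberField Filter Topology IsDedekindDomain MulAction
open scoped Pointwise

namespace Pool.Agent.Helper22.L

open Pool.Agent.L Pool.Agent.HG Pool.Agent.Helper70.Art Pool.Agent.H53SCD Pool.Agent.Helper21.HG
open Pool.Agent.Helper22.HG

noncomputable section

/-! ## Density -/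

open scoped Classical in
/-- The primes `v` without fixed point of the Frobenius elements have positive density. -/
theorem der2 {k L : Type} [Field k] [NumberField k] [Field L] [NumberField L] [Algebra k L]
    [IsGalois k L] (Ω : Finset L) (hint : ∀ θ ∈ Ω, IsIntegral ℤ θ)
    (hst : ∀ σ : L ≃ₐ[k] L, ∀ θ ∈ Ω, σ θ ∈ Ω) (g : L ≃ₐ[k] L) (hg : ∀ θ ∈ Ω, g θ ≠ θ)
    (B : ℕ → Finset (Pr k)) (hB : ∀ x v, v ∈ B x ↔ nm v ≤ x) :
    ∃ (δ C : ℝ) (Q : Set (Pr k)), 0 < δ ∧
      (∀ v ∈ Q, ∀ P : Pr L, P.asIdeal.comap (algebraMap (𝓞 k) (𝓞 L)) = v.asIdeal →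
        ∀ b : 𝓞 L, (b : L) ∈ Ω → b ^ nm v - b ∉ P.asIdeal) ∧
      ∀ x : ℕ, 2 ≤ x →
        |∑ v ∈ (B x).filter (· ∈ Q), (1 : ℝ) / nm v - δ * Real.log (Real.log x)| ≤ C := by
  classical
  -- the action
  let A : MulAction (L ≃ₐ[k] L) {x // x ∈ Ω} :=
    { smul := fun g x => ⟨g x.1, hst g x.1 x.2⟩
      one_smul := fun x => rfl
      mul_smul := fun g h x => rfl }
  let β : {x // x ∈ Ω} → 𝓞 L := fun x => ⟨x.1, hint x.1 x.2⟩
  have hβ : Function.Injective β := by
    intro x y h
    exact Subtype.ext (congrArg (fun z : 𝓞 L => (z : L)) h)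
  have heq : ∀ (g : L ≃ₐ[k] L) (y : {x // x ∈ Ω}), β (g • y) = g • β y := by
    intro g y
    apply RingOfIntegers.ext
    rfl
  obtain ⟨C, hC⟩ := density (k := k) β hβ heq
  have hd0 : 0 < d0 k L {x // x ∈ Ω} := by
    unfold d0
    have h1 : 0 < Nat.card {g : L ≃ₐ[k] L // ∀ ω : {x // x ∈ Ω}, g • ω ≠ ω} := by
      have : Nonempty {g : L ≃ₐ[k] L // ∀ ω : {x // x ∈ Ω}, g • ω ≠ ω} :=
        ⟨⟨g, fun ω h => hg ω.1 ω.2 (congrArg Subtype.val h)⟩⟩
      exact Nat.card_pos
    have h2 : 0 < Nat.card (L ≃ₐ[k] L) := Nat.card_pos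
    positivity
  obtain ⟨C₁, h1⟩ := density_of_dirichlet B hB (QD k β 1) (fun v hv => hv.1)
    (fun p => ZZ (k := k) β p) (Nat.divisors 1) (δ := d0 k L {x // x ∈ Ω}) (C := C) (by
      intro p hp
      exact card_QD β heq p (fun h => p.2.one_lt.ne' (Nat.dvd_one.1 h))) (by
      filter_upwards [hC] with s hs
      exact hs.2)
  refine ⟨d0 k L {x // x ∈ Ω}, C₁, QD k β 1, hd0, ?_, h1⟩
  rintro v ⟨-, -, hv⟩ P hP b hb
  have h2 := hv P hP ⟨b, hb⟩
  have e : β ⟨b, hb⟩ = b := RingOfIntegers.ext rfl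
  rwa [e] at h2

/-! ## Places -/

section places

open VC Polynomial IntermediateField

/-- A transcendental function has finitely many zeros. -/
theorem finite_zeros' {k F : Type*} [Field k] [CharZero k] [Field F] [Algebra k F]
    (hF : IsFunctionField k F) {t : F} (htr : Transcendental k t) :
    {P : Place k F | t ∈ P.ring.nonunits}.Finite := by
  have hfin := hF.finiteDimensional htr
  let i1 : Algebra k[X] F := polyAlg t
  let i3 : Algebra (RatFunc k) F := ratAlg t htr
  have s1 : IsScalarTower k k[X] F := IsScalarTower.of_algebraMap_eq (fun x =>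
    (aeval t : k[X] →ₐ[k] F).commutes x |>.symm)
  have s3 : IsScalarTower k[X] (RatFunc k) F := IsScalarTower.of_algebraMap_eq (fun x =>
    (ratAlg_poly t htr x).symm)
  have f1 : FiniteDimensional (RatFunc k) F := finiteDimensional_ratAlg t htr hfin
  have hc0 : CharZero (RatFunc k) := charZero_of_injective_algebraMap (algebraMap k (RatFunc k)).injective
  have hBd : IsDedekindDomain (integralClosure k[X] F) :=
    integralClosure.isDedekindDomain k[X] (RatFunc k) F
  have hBf : IsFractionRing (integralClosure k[X] F) F :=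
    integralClosure.isFractionRing_of_finite_extension (RatFunc k) F
  have hBfin : Module.Finite k[X] (integralClosure k[X] F) :=
    IsIntegralClosure.finite k[X] (RatFunc k) F (integralClosure k[X] F)
  have f1 : FaithfulSMul k[X] (integralClosure k[X] F) := by
    rw [faithfulSMul_iff_algebraMap_injective]
    intro x y hxy
    have h := congrArg (algebraMap (integralClosure k[X] F) F) hxy
    rw [← IsScalarTower.algebraMap_apply, ← IsScalarTower.algebraMap_apply,
      IsScalarTower.algebraMap_apply k[X] (RatFunc k) F,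
      IsScalarTower.algebraMap_apply k[X] (RatFunc k) F] at h
    exact IsFractionRing.injective k[X] (RatFunc k) ((algebraMap (RatFunc k) F).injective h)
  have hX : algebraMap k[X] F X = t := by
    change aeval t X = t
    simp
  have hov : ∀ P : Place k F, t ∈ P.ring.nonunits → OverZero P := by
    intro P hP
    unfold OverZero
    rw [hX]
    exact hP
  have hfinp : Finite ((Ideal.span {(X : k[X])}).primesOver (integralClosure k[X] F)) :=
    Algebra.QuasiFinite.finite_primesOver _
  rw [← Set.finite_coe_iff]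
  let g : {P : Place k F | t ∈ P.ring.nonunits} →
      (Ideal.span {(X : k[X])}).primesOver (integralClosure k[X] F) :=
    fun P => ⟨center (integralClosure k[X] F) P.1 (hov P.1 P.2), inferInstance, inferInstance⟩
  refine Finite.of_injective g ?_
  intro P P' h
  apply Subtype.ext
  apply center_injective (integralClosure k[X] F) P.1 P'.1 (hov P.1 P.2) (hov P'.1 P'.2)
  exact congrArg Subtype.val h

variable {k F E : Type*} [Field k] [Field F] [Algebra k F] [Field E] [Algebra k E]

/-- A polynomial with nonzero constant term takes unit values at the nonunits. -/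
theorem eval_unit (P : ValuationSubring F) (hk : ∀ a : k, algebraMap k F a ∈ P) {t : F}
    (ht : t ∈ P.nonunits) (f : k[X]) (hf : f.coeff 0 ≠ 0) :
    aeval t f ∈ P ∧ aeval t f ∉ P.nonunits := by
  have hmem : ∀ q : k[X], aeval t q ∈ P := by
    intro q
    rw [aeval_eq_sum_range]
    refine sum_mem fun i _ => ?_
    rw [Algebra.smul_def]
    exact P.mul_mem _ _ (hk _) (pow_mem (ValuationSubring.nonunits_subset ht) i)
  refine ⟨hmem f, fun h => ?_⟩
  have h1 : aeval t f = aeval t f.divX * t + algebraMap k F (f.coeff 0) := by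
    conv_lhs => rw [← divX_mul_X_add f]
    simp
  have h2 : algebraMap k F (f.coeff 0) ∈ P.nonunits := by
    have h3 : algebraMap k F (f.coeff 0) = aeval t f - aeval t f.divX * t := by rw [h1]; ring
    rw [h3, ValuationSubring.mem_nonunits_iff]
    refine lt_of_le_of_lt (Valuation.map_sub _ _ _) (max_lt ((P.mem_nonunits_iff).1 h) ?_)
    rw [map_mul]
    have h5 : P.valuation (aeval t f.divX) ≤ 1 := (P.valuation_le_one_iff _).2 (hmem _)
    calc P.valuation (aeval t f.divX) * P.valuation t ≤ 1 * P.valuation t := by gcongr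
      _ < 1 := by rw [one_mul]; exact (P.mem_nonunits_iff).1 ht
  have h3 : algebraMap k F (f.coeff 0) ≠ 0 := (_root_.map_ne_zero _).2 hf
  have h4 : (algebraMap k F (f.coeff 0))⁻¹ ∈ P := by
    rw [← map_inv₀]
    exact hk _
  rcases (ValuationSubring.mem_nonunits_iff_or _).1 h2 with h5 | h5
  · exact h3 h5
  · exact h5 h4

/-- nonzero nonunits are transcendental -/
theorem trans_nonunit (P : ValuationSubring F) (hk : ∀ a : k, algebraMap k F a ∈ P) {t : F}
    (ht0 : t ≠ 0) (ht : t ∈ P.nonunits) : Transcendental k t := by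
  intro halg
  have h1 := (eval_unit P hk ht (minpoly k t) (minpoly.coeff_zero_ne_zero halg.isIntegral ht0)).2
  rw [minpoly.aeval] at h1
  exact h1 ((ValuationSubring.mem_nonunits_iff_or _).2 (Or.inl rfl))

/-- `φ` kills the nonunits. -/
theorem phi_nonunit [Algebra.IsAlgebraic k E] (P : ValuationSubring F)
    (hk : ∀ a : k, algebraMap k F a ∈ P) (φ : P →+* E)
    (hφ : ∀ (a : k) (x : P), (x : F) = algebraMap k F a → φ x = algebraMap k E a) (x : P)
    (hx : (x : F) ∈ P.nonunits) : φ x = 0 := by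
  by_contra h0
  let a1 : Algebra k P := ((algebraMap k F).codRestrict P.toSubring hk).toAlgebra
  let ψ : P →ₐ[k] E := { φ with commutes' := fun a => hφ a _ rfl }
  let ι : P →ₐ[k] F := { P.subtype with commutes' := fun a => rfl }
  set f := minpoly k (φ x) with hf
  have hint : IsIntegral k (φ x) := (Algebra.IsAlgebraic.isAlgebraic (φ x)).isIntegral
  have h1 := eval_unit P hk hx f (minpoly.coeff_zero_ne_zero hint h0)
  have h2 : ψ (aeval x f) = 0 := by
    rw [← aeval_algHom_apply]
    exact minpoly.aeval k (φ x)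
  have h3 : ((aeval x f : P) : F) = aeval (x : F) f := (aeval_algHom_apply ι x f).symm
  have h4 : IsUnit (aeval x f : P) := by
    by_contra hcon
    apply h1.2
    rw [← h3, ValuationSubring.coe_mem_nonunits_iff]
    exact (IsLocalRing.mem_maximalIdeal _).2 hcon
  exact (h4.map ψ).ne_zero h2

/-- The image of `φ` is generated by one element. -/
theorem exists_gen [CharZero k] [Algebra.IsAlgebraic k E] (hF : IsFunctionField k F)
    (P : ValuationSubring F) (hk : ∀ a : k, algebraMap k F a ∈ P) {t : F} (ht0 : t ≠ 0)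
    (ht : t ∈ P.nonunits) (φ : P →+* E)
    (hφ : ∀ (a : k) (x : P), (x : F) = algebraMap k F a → φ x = algebraMap k E a) :
    ∃ a : P, ∀ x : P, φ x ∈ k⟮φ a⟯ := by
  classical
  let a1 : Algebra k P := ((algebraMap k F).codRestrict P.toSubring hk).toAlgebra
  let ψ : P →ₐ[k] E := { φ with commutes' := fun a => hφ a _ rfl }
  have htr := trans_nonunit P hk ht0 ht
  have hfin := hF.finiteDimensional htr
  let S : IntermediateField k E := ψ.range.toIntermediateField (by
    rintro y ⟨x, rfl⟩
    by_cases hx : (x : F) ∈ P.nonunits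
    · refine ⟨0, ?_⟩
      have h1 : ψ x = 0 := phi_nonunit P hk φ hφ x hx
      rw [map_zero]
      change 0 = (ψ x)⁻¹
      rw [h1, inv_zero]
    · rw [ValuationSubring.coe_mem_nonunits_iff, IsLocalRing.mem_maximalIdeal, mem_nonunits_iff, not_not] at hx
      obtain ⟨y, hy⟩ := hx.exists_right_inv
      refine ⟨y, ?_⟩
      have h2 : ψ x * ψ y = 1 := by rw [← map_mul, hy, map_one]
      exact eq_inv_of_mul_eq_one_right h2)
  have hS : ∀ y : E, y ∈ S ↔ ∃ x : P, φ x = y := fun y => Iff.rfl
  have hfd : FiniteDimensional k S := by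
    have hrank : Module.rank k S ≤ (Module.finrank k⟮(t : F)⟯ F : ℕ) := by
      apply _root_.rank_le
      intro s hs
      choose z hz using fun q : S => (hS q).1 q.2
      have h := FF.card_le_of_mod (t : F) htr hfin P.toSubring hk
        (ValuationSubring.nonunits_subset ht)
        (fun i : s => (z i : F)) (fun i => (z i).2) (by
          rintro c ⟨r, hr, hcr⟩
          rw [Fintype.linearIndependent_iff] at hs
          apply hs c
          have h1 : (∑ i : s, c i • z i) = (⟨t, ValuationSubring.nonunits_subset ht⟩ : P) * ⟨r, hr⟩ := by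
            apply Subtype.ext
            push_cast
            rw [← hcr]
            apply Finset.sum_congr rfl
            intro i _
            rfl
          have h2 := congrArg ψ h1
          have h3 : ψ (⟨t, ValuationSubring.nonunits_subset ht⟩ : P) = 0 :=
            phi_nonunit P hk φ hφ _ ht
          rw [map_sum, map_mul, h3, zero_mul] at h2
          apply Subtype.ext
          refine Eq.trans ?_ h2
          push_cast
          apply Finset.sum_congr rfl
          intro i _
          rw [map_smul]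
          congr 1
          exact (hz i).symm)
      rw [Fintype.card_coe] at h
      exact h
    rw [FiniteDimensional, ← Module.rank_lt_aleph0_iff]
    exact lt_of_le_of_lt hrank (Cardinal.natCast_lt_aleph0)
  obtain ⟨α, hα⟩ := Field.exists_primitive_element k S
  obtain ⟨a, ha⟩ := (hS α).1 α.2
  refine ⟨a, fun x => ?_⟩
  have h1 : (⟨φ x, (hS _).2 ⟨x, rfl⟩⟩ : S) ∈ k⟮α⟯ := by rw [hα]; exact mem_top
  have h2 : (k⟮α⟯).map S.val = k⟮φ a⟯ := by
    rw [IntermediateField.adjoin_map, Set.image_singleton, ha]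
    rfl
  rw [← h2]
  exact ⟨_, h1, rfl⟩

end places

/-! ## The branch points -/

section branch

open VC Polynomial IntermediateField

/-- `φ` is a point of the residue field of the branch point `P` -/
def Emb (k : Type) {K0 E : Type} [Field k] [Field K0] [Field E] [Algebra k K0] [Algebra k E] (h : K0)
    (P : ValuationSubring K0) (φ : P →+* E) : Prop :=
  (∀ a : k, algebraMap k K0 a ∈ P) ∧ (∀ z : K0, P.valuation h ≠ P.valuation z ^ 2) ∧
    ∀ (a : k) (x : P), (x : K0) = algebraMap k K0 a → φ x = algebraMap k E a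

variable {k K0 E : Type} [Field k] [NumberField k] [Field K0] [Algebra k K0] [Field E] [Algebra k E]
  [Algebra.IsAlgebraic k E]

theorem odd_nonunit {h : K0} {P : ValuationSubring K0}
    (hP : ∀ z : K0, P.valuation h ≠ P.valuation z ^ 2) :
    h ≠ 0 ∧ (h ∈ P.nonunits ∨ h⁻¹ ∈ P.nonunits) := by
  have h0 : h ≠ 0 := by
    rintro rfl
    exact hP 0 (by rw [map_zero, zero_pow two_ne_zero])
  refine ⟨h0, ?_⟩
  by_contra hcon
  rw [not_or, ValuationSubring.mem_nonunits_iff, ValuationSubring.mem_nonunits_iff, not_lt, not_lt,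
    map_inv₀, one_le_inv₀ (zero_lt_iff.2 ((Valuation.ne_zero_iff _).2 h0))] at hcon
  exact hP 1 (by rw [map_one, one_pow]; exact le_antisymm hcon.2 hcon.1)

omit [NumberField k] in
theorem finite_odd [CharZero k] (hF : IsFunctionField k K0) (h : K0) :
    {P : ValuationSubring K0 | (∀ a : k, algebraMap k K0 a ∈ P) ∧
      ∀ z : K0, P.valuation h ≠ P.valuation z ^ 2}.Finite := by
  have hinv : ∀ {x : K0}, Transcendental k x → Transcendental k x⁻¹ := by
    intro x hx halg
    exact hx (by rw [← inv_inv x]; exact halg.inv)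
  by_cases htr : Transcendental k h
  · refine (((finite_zeros' hF htr).union (finite_zeros' hF (hinv htr))).image Place.ring).subset ?_
    rintro P ⟨hk, hodd⟩
    obtain ⟨h0, h1⟩ := odd_nonunit hodd
    have htop : P ≠ ⊤ := by
      rintro rfl
      rcases h1 with h1 | h1
      · rcases (ValuationSubring.mem_nonunits_iff_or _).1 h1 with h2 | h2
        · exact h0 h2
        · exact h2 (ValuationSubring.mem_top _)
      · rcases (ValuationSubring.mem_nonunits_iff_or _).1 h1 with h2 | h2
        · exact inv_ne_zero h0 h2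
        · exact h2 (ValuationSubring.mem_top _)
    exact ⟨⟨P, hk, htop⟩, h1, rfl⟩
  · convert Set.finite_empty
    rw [Set.eq_empty_iff_forall_notMem]
    rintro P ⟨hk, hodd⟩
    obtain ⟨h0, h1⟩ := odd_nonunit hodd
    rcases h1 with h1 | h1
    · exact htr (trans_nonunit P hk h0 h1)
    · have h2 := hinv (trans_nonunit P hk (inv_ne_zero h0) h1)
      rw [inv_inv] at h2
      exact htr h2

/-- For every branch point an algebraic integer which generates its residue field. -/
theorem exists_theta (hF : IsFunctionField k K0) (h : K0) (P : ValuationSubring K0)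
    (hex : ∃ φ : P →+* E, Emb k h P φ) :
    ∃ θ : E, IsIntegral ℤ θ ∧ ∃ (φ : P →+* E) (a : P), Emb k h P φ ∧ φ a = θ ∧ ∀ x, φ x ∈ k⟮θ⟯ := by
  obtain ⟨φ, hφ⟩ := hex
  have hk := hφ.1
  obtain ⟨a, ha⟩ : ∃ a : P, ∀ x : P, φ x ∈ k⟮φ a⟯ := by
    obtain ⟨h0, h1 | h1⟩ := odd_nonunit hφ.2.1
    · exact exists_gen hF P hk h0 h1 φ hφ.2.2
    · exact exists_gen hF P hk (inv_ne_zero h0) h1 φ hφ.2.2
  have hc : CharZero E := charZero_of_injective_algebraMap (algebraMap k E).injective
  have halg : IsAlgebraic ℤ (φ a) := by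
    have h1 : Algebra.IsAlgebraic ℚ E := Algebra.IsAlgebraic.trans ℚ k E
    exact (IsFractionRing.isAlgebraic_iff ℤ ℚ E).2 (h1.isAlgebraic _)
  obtain ⟨m, hm0, hm⟩ := halg.exists_integral_multiple
  refine ⟨m • φ a, hm, φ, m • a, hφ, by rw [map_zsmul], fun x => ?_⟩
  have hle : k⟮φ a⟯ ≤ k⟮m • φ a⟯ := by
    rw [adjoin_simple_le_iff]
    have h1 : φ a = (algebraMap k E (m : k))⁻¹ * (m • φ a) := by
      have h2 : (m : E) ≠ 0 := by exact_mod_cast hm0
      rw [zsmul_eq_mul, map_intCast, ← mul_assoc, inv_mul_cancel₀ h2, one_mul]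
    have h3 : (algebraMap k E (m : k))⁻¹ * (m • φ a) ∈ k⟮m • φ a⟯ :=
      mul_mem (inv_mem (_root_.algebraMap_mem _ _)) (mem_adjoin_simple_self _ _)
    rwa [← h1] at h3
  exact hle (ha x)

/-- The finite set of algebraic integers which represents the branch points. -/
theorem exists_set [IsAlgClosed E] (hF : IsFunctionField k K0) (h : K0) :
    ∃ Ω : Finset E, (∀ ω ∈ Ω, IsIntegral ℤ ω) ∧ (∀ g : E ≃ₐ[k] E, ∀ ω ∈ Ω, g ω ∈ Ω) ∧
      ∀ g : E ≃ₐ[k] E, FixesBranch h g ↔ ∃ ω ∈ Ω, g ω = ω := by
  classical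
  have hcl : IsAlgClosure k E := ⟨inferInstance, inferInstance⟩
  have hnor : Normal k E := IsAlgClosure.normal k E
  have hfin := finite_odd hF h
  have hch : ∀ P : ValuationSubring K0, ∃ θ : E, (∃ φ : P →+* E, Emb k h P φ) → IsIntegral ℤ θ ∧
      ∃ (φ : P →+* E) (a : P), Emb k h P φ ∧ φ a = θ ∧ ∀ x, φ x ∈ k⟮θ⟯ := by
    intro P
    by_cases hex : ∃ φ : P →+* E, Emb k h P φ
    · obtain ⟨θ, hθ⟩ := exists_theta hF h P hex
      exact ⟨θ, fun _ => hθ⟩
    · exact ⟨0, fun h => absurd h hex⟩
  choose Θ hΘ using hch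
  let Ω : Finset E := (hfin.toFinset.filter
    (fun P : ValuationSubring K0 => ∃ φ : P →+* E, Emb k h P φ)).biUnion
    (fun P => ((minpoly k (Θ P)).aroots E).toFinset)
  have hmem : ∀ ω, ω ∈ Ω ↔ ∃ P : ValuationSubring K0, (∃ φ : P →+* E, Emb k h P φ) ∧
      aeval ω (minpoly k (Θ P)) = 0 := by
    intro ω
    simp only [Ω, Finset.mem_biUnion, Finset.mem_filter, Set.Finite.mem_toFinset, Multiset.mem_toFinset]
    constructor
    · rintro ⟨P, ⟨-, hP⟩, hω⟩
      exact ⟨P, hP, (mem_aroots.1 hω).2⟩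
    · rintro ⟨P, hP, hω⟩
      obtain ⟨φ, hφ⟩ := hP
      refine ⟨P, ⟨⟨hφ.1, hφ.2.1⟩, φ, hφ⟩, mem_aroots.2 ⟨minpoly.ne_zero ?_, hω⟩⟩
      exact (Algebra.IsAlgebraic.isAlgebraic (Θ P)).isIntegral
  have hconj : ∀ (P : ValuationSubring K0) (ω : E), aeval ω (minpoly k (Θ P)) = 0 →
      ∃ τ : E ≃ₐ[k] E, τ (Θ P) = ω :=
    fun P ω hω => minpoly.exists_algEquiv_of_root' (Algebra.IsAlgebraic.isAlgebraic _) hω
  refine ⟨Ω, ?_, ?_, ?_⟩
  · intro ω hω
    obtain ⟨P, hP, hr⟩ := (hmem ω).1 hω
    obtain ⟨τ, rfl⟩ := hconj P ω hr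
    exact (hΘ P hP).1.map (τ.toRingEquiv.toRingHom.toIntAlgHom)
  · intro g ω hω
    obtain ⟨P, hP, hr⟩ := (hmem ω).1 hω
    refine (hmem _).2 ⟨P, hP, ?_⟩
    rw [← AlgEquiv.coe_toAlgHom, aeval_algHom_apply, hr, map_zero]
  · intro g
    constructor
    · rintro ⟨P, φ, hk, hodd, hφ, hfix⟩
      have hP : ∃ φ : P →+* E, Emb k h P φ := ⟨φ, hk, hodd, hφ⟩
      obtain ⟨-, φ', a, hφ', ha, -⟩ := hΘ P hP
      refine ⟨φ a, (hmem _).2 ⟨P, hP, ?_⟩, hfix a⟩
      let a1 : Algebra k P := ((algebraMap k K0).codRestrict P.toSubring hk).toAlgebra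
      let ψ : P →ₐ[k] E := { φ with commutes' := fun a => hφ a _ rfl }
      let ψ' : P →ₐ[k] E := { φ' with commutes' := fun a => hφ'.2.2 a _ rfl }
      have h1 : ψ' (aeval a (minpoly k (Θ P))) = 0 := by
        rw [← aeval_algHom_apply]
        have : ψ' a = Θ P := ha
        rw [this, minpoly.aeval]
      have h2 : ((aeval a (minpoly k (Θ P)) : P) : K0) ∈ P.nonunits := by
        rw [ValuationSubring.coe_mem_nonunits_iff, IsLocalRing.mem_maximalIdeal, mem_nonunits_iff]
        intro hu
        exact (hu.map ψ').ne_zero h1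
      have h3 := phi_nonunit P hk φ hφ _ h2
      have h4 : aeval (ψ a) (minpoly k (Θ P)) = ψ (aeval a (minpoly k (Θ P))) := aeval_algHom_apply _ _ _
      exact h4.trans h3
    · rintro ⟨ω, hω, hgω⟩
      obtain ⟨P, hP, hr⟩ := (hmem ω).1 hω
      obtain ⟨τ, rfl⟩ := hconj P ω hr
      obtain ⟨-, φ, a, hφ, ha, hgen⟩ := hΘ P hP
      refine ⟨P, (τ : E →+* E).comp φ, hφ.1, hφ.2.1, fun b x hx => ?_, fun x => ?_⟩
      · rw [RingHom.comp_apply, hφ.2.2 b x hx]
        exact τ.commutes b
      · have h1 : ∀ y ∈ k⟮Θ P⟯, g (τ y) = τ y := by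
          intro y hy
          induction hy using IntermediateField.adjoin_induction with
          | mem x hx =>
            rw [Set.mem_singleton_iff] at hx
            rw [hx]
            exact hgω
          | algebraMap x => rw [AlgEquiv.commutes, AlgEquiv.commutes]
          | add x y _ _ hx hy => rw [map_add, map_add, hx, hy]
          | inv x _ hx => rw [map_inv₀, map_inv₀, hx]
          | mul x y _ _ hx hy => rw [map_mul, map_mul, hx, hy]
        exact h1 (φ x) (hgen x)

end branch

/-! ## Frobenius elements -/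

theorem int_mem {E : Type} [Field E] (O : ValuationSubring E) {z : E} (hz : IsIntegral ℤ z) :
    z ∈ O := by
  have h1 : IsIntegral O z := hz.tower_top
  obtain ⟨y, hy⟩ := IsIntegrallyClosed.isIntegral_iff.mp h1
  rw [← hy]
  exact y.2

/-- **BLOCK DEN.** -/
theorem den : StmtDEN := by
  classical
  intro k K0 _ _ _ _ h hG σ hσ B hB
  obtain ⟨Ω, hint, hst, hfix⟩ := exists_set (E := AlgebraicClosure k) hG.ff h
  have hσΩ : ∀ ω ∈ Ω, σ ω ≠ ω := fun ω hω e => hσ ((hfix σ).2 ⟨ω, hω, e⟩)
  -- the field generated by `Ω`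
  let L : IntermediateField k (AlgebraicClosure k) := IntermediateField.adjoin k (Ω : Set (AlgebraicClosure k))
  have hfd : FiniteDimensional k L :=
    IntermediateField.finiteDimensional_adjoin fun x _ => (Algebra.IsAlgebraic.isAlgebraic x).isIntegral
  have hLn : Normal k L := by
    rw [IntermediateField.normal_iff_forall_map_le']
    intro g
    change (IntermediateField.adjoin k (Ω : Set (AlgebraicClosure k))).map _ ≤ _
    rw [IntermediateField.adjoin_map, IntermediateField.adjoin_le_iff]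
    rintro _ ⟨x, hx, rfl⟩
    exact IntermediateField.subset_adjoin k _ (hst g x hx)
  have hgal : IsGalois k L := ⟨⟩
  have hnf : NumberField L := NumberField.of_module_finite k L
  -- the set in `L`
  let ΩL : Finset L := Ω.preimage (fun x : L => (x : AlgebraicClosure k)) (fun _ _ _ _ h => Subtype.ext h)
  have hmem : ∀ x : L, x ∈ ΩL ↔ (x : AlgebraicClosure k) ∈ Ω := fun x => Finset.mem_preimage
  have hres : ∀ (g : AlgebraicClosure k ≃ₐ[k] AlgebraicClosure k) (x : L),
      ((g.restrictNormal L x : L) : AlgebraicClosure k) = g x := fun g x => g.restrictNormal_commutes L x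
  obtain ⟨δ, C, Q, hδ, hQ, hden⟩ := der2 (k := k) ΩL (fun θ hθ => by
      have h1 := hint _ ((hmem θ).1 hθ)
      exact (isIntegral_algHom_iff (L.val.restrictScalars ℤ) (RingHom.injective _)).1 h1) (by
      intro g θ hθ
      obtain ⟨g', rfl⟩ := AlgEquiv.restrictNormalHom_surjective (F := k) (K₁ := L) (AlgebraicClosure k) g
      rw [hmem]
      change ((g'.restrictNormal L θ : L) : AlgebraicClosure k) ∈ Ω
      rw [hres]
      exact hst g' _ ((hmem θ).1 hθ)) (σ.restrictNormal L) (by
      intro θ hθ e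
      apply hσΩ _ ((hmem θ).1 hθ)
      rw [← hres, e]) B hB
  refine ⟨δ, C, Q, hδ, ?_, hden⟩
  intro v hv O F p f hD hF
  obtain ⟨ω, hω, hFω⟩ := (hfix F).1 hF
  have hωL : ω ∈ L := IntermediateField.subset_adjoin k _ hω
  -- the prime of `L` below `O`
  have hmemO : ∀ b : 𝓞 L, ((b : L) : AlgebraicClosure k) ∈ O := fun b =>
    int_mem O ((RingOfIntegers.isIntegral_coe b).map (L.val.restrictScalars ℤ))
  let ρ : 𝓞 L →+* O := ((algebraMap L (AlgebraicClosure k)).comp (algebraMap (𝓞 L) L)).codRestrict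
    O.toSubring hmemO
  let I : Ideal (𝓞 L) := (IsLocalRing.maximalIdeal O).comap ρ
  have hI : ∀ b : 𝓞 L, b ∈ I ↔ O.valuation ((b : L) : AlgebraicClosure k) < 1 := by
    intro b
    rw [Ideal.mem_comap, O.valuation_lt_one_iff]
    rfl
  have hval : ∀ a : 𝓞 k, O.valuation (algebraMap k (AlgebraicClosure k) (a : k)) < 1 ↔ a ∈ v.asIdeal := by
    intro a
    rw [← HeightOneSpectrum.valuation_lt_one_iff_mem (K := k) v a]
    rcases eq_or_ne (a : k) 0 with h0 | h0
    · rw [h0, map_zero, map_zero]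
      have h1 : v.valuation k (algebraMap (𝓞 k) k a) = 0 := by
        rw [show (algebraMap (𝓞 k) k a) = 0 from h0, map_zero]
      exact ⟨fun _ => lt_of_le_of_lt h1.le zero_lt_one, fun _ => zero_lt_one⟩
    · have h1 := hD.above ((a : k)⁻¹)
      rw [map_inv₀, map_inv₀, ← O.valuation_le_one_iff, map_inv₀,
        inv_le_one₀ (zero_lt_iff.2 ((Valuation.ne_zero_iff _).2 ((_root_.map_ne_zero _).2 h0))),
        inv_le_one₀ (zero_lt_iff.2 ((Valuation.ne_zero_iff _).2 h0))] at h1
      rw [← not_le, ← not_le, h1]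
  have hcomap : I.comap (algebraMap (𝓞 k) (𝓞 L)) = v.asIdeal := by
    ext a
    rw [Ideal.mem_comap, hI, ← hval]
    rfl
  have hIp : I.IsPrime := Ideal.IsPrime.comap ρ
  have hIb : I ≠ ⊥ := by
    intro h0
    apply v.ne_bot
    rw [← hcomap, h0, eq_bot_iff]
    intro a ha
    rw [Ideal.mem_comap, Ideal.mem_bot] at ha
    rw [Ideal.mem_bot]
    exact (FaithfulSMul.algebraMap_injective (𝓞 k) (𝓞 L)) (by rw [ha, map_zero])
  let b : 𝓞 L := ⟨⟨ω, hωL⟩, by
    exact (isIntegral_algHom_iff (L.val.restrictScalars ℤ) (RingHom.injective _)).1 (hint ω hω)⟩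
  refine hQ v hv ⟨I, hIp, hIb⟩ hcomap b ((hmem _).2 hω) ?_
  change b ^ nm v - b ∈ I
  rw [hI]
  have h2 := hD.frob.frob ω (int_mem O (hint ω hω))
  rw [← hD.norm] at h2
  change O.valuation (F ω - ω ^ nm v) < 1 at h2
  rw [hFω, Valuation.map_sub_swap] at h2
  have e : (((b ^ nm v - b : 𝓞 L) : L) : AlgebraicClosure k) = ω ^ nm v - ω := by
    push_cast
    rfl
  rw [e]
  exact h2

end

end Pool.Agent.Helper22.L
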